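import Pool.Agent.helper70.LE.SpecN
import Pool.Agent.helper59.FI.Base

/-!
# Project LE, row ENS
-/

set_option autoImplicit false

namespace Pool.Agent.LE

open Pool.Agent.helper58.DC Pool.Agent.DI Pool.Agent.GR Pool.Agent.OB Pool.Agent.DR Pool.Agent.FI Pool.Agent.FI3 Pool.Agent.FI4

theorem ENS_mul {G : Type} [Group G] (g h : G) (ψ : G → ℂ) : cjF g (cjF h ψ) = cjF (g * h) ψ := by
  funext x
  rw [cjF_apply, cjF_apply, cjF_apply]
  congr 1
  group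

theorem ENS_one {G : Type} [Group G] (ψ : G → ℂ) : cjF (1 : G) ψ = ψ := by
  funext x
  rw [cjF_apply]
  congr 1
  group

/-- The fibres of `n ↦ cjF n ψ`. -/
theorem ENS_fib {G : Type} [Group G] [Finite G] (N : Subgroup G) (ψ : G → ℂ) (T : Set (G → ℂ)) :
    {n : G | n ∈ N ∧ cjF n ψ ∈ T}.ncard =
      Nat.card (stF N ψ) * {ψ' : G → ℂ | (∃ n ∈ N, ψ' = cjF n ψ) ∧ ψ' ∈ T}.ncard := by
  classical
  have hOfin : {ψ' : G → ℂ | (∃ n ∈ N, ψ' = cjF n ψ) ∧ ψ' ∈ T}.Finite := by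
    refine (Set.finite_range (fun n : G => cjF n ψ)).subset ?_
    rintro ψ' ⟨⟨n, -, rfl⟩, -⟩
    exact ⟨n, rfl⟩
  have hSfin : {n : G | n ∈ N ∧ cjF n ψ ∈ T}.Finite := Set.toFinite _
  rw [Set.ncard_eq_toFinset_card _ hSfin, Set.ncard_eq_toFinset_card _ hOfin,
    Finset.card_eq_sum_card_fiberwise (f := fun n : G => cjF n ψ) (t := hOfin.toFinset)]
  · rw [Finset.sum_const_nat (m := Nat.card (stF N ψ)), mul_comm]
    intro ψ' hψ'
    rw [Set.Finite.mem_toFinset] at hψ'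
    obtain ⟨⟨m, hm, rfl⟩, hT⟩ := hψ'
    have h1 : Nat.card (stF N ψ) = ((stF N ψ : Subgroup G) : Set G).ncard := rfl
    rw [h1, ← Set.ncard_coe_finset, ← Set.ncard_image_of_injective ((stF N ψ : Subgroup G) : Set G) (mul_right_injective m)]
    congr 1
    ext n
    rw [Finset.mem_coe, Finset.mem_filter, Set.Finite.mem_toFinset]
    constructor
    · rintro ⟨⟨hn, -⟩, h2⟩
      refine ⟨m⁻¹ * n, ⟨N.mul_mem (N.inv_mem hm) hn, ?_⟩, by simp⟩
      change cjF (m⁻¹ * n) ψ = ψ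
      rw [← ENS_mul, h2, ENS_mul, inv_mul_cancel, ENS_one]
    · rintro ⟨s, hs, rfl⟩
      have hs' : s ∈ N ∧ cjF s ψ = ψ := hs
      have h3 : cjF (m * s) ψ = cjF m ψ := by rw [← ENS_mul, hs'.2]
      refine ⟨⟨N.mul_mem hm hs'.1, ?_⟩, h3⟩
      change cjF (m * s) ψ ∈ T
      rw [h3]
      exact hT
  · intro n hn
    have hn' : n ∈ hSfin.toFinset := hn
    rw [Set.Finite.mem_toFinset] at hn'
    have : cjF n ψ ∈ hOfin.toFinset := by
      rw [Set.Finite.mem_toFinset]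
      exact ⟨⟨n, hn'.1, rfl⟩, hn'.2⟩
    exact this

/-- conjugation of the sum over `x` -/
theorem ENS_ccj {G : Type} [Group G] [Finite G] (N : Subgroup G) (φ e : G → ℂ)
    (hφ : ∀ g, ∀ h ∈ N, φ (h * g * h⁻¹) = φ g) :
    cc φ (fun t => ∑ᶠ n ∈ (N : Set G), e (n⁻¹ * t * n)) = (Nat.card N : ℂ) * cc φ e := by
  classical
  have : Fintype G := Fintype.ofFinite G
  unfold cc
  rw [← mul_div_assoc]
  congr 1
  rw [finsum_eq_sum_of_fintype (fun x => (∑ᶠ n ∈ (N : Set G), e (n⁻¹ * x * n)) * φ x),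
    finsum_eq_sum_of_fintype (fun x => e x * φ x)]
  have h1 : ∀ x : G, (∑ᶠ n ∈ (N : Set G), e (n⁻¹ * x * n)) * φ x =
      ∑ n ∈ (N : Set G).toFinset, e (n⁻¹ * x * n) * φ x := by
    intro x
    rw [finsum_mem_eq_toFinset_sum, Finset.sum_mul]
  rw [Finset.sum_congr rfl fun x _ => h1 x, Finset.sum_comm]
  have h2 : ∀ n ∈ (N : Set G).toFinset, ∑ x : G, e (n⁻¹ * x * n) * φ x = ∑ x : G, e x * φ x := by
    intro n hn
    rw [Set.mem_toFinset] at hn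
    rw [← Equiv.sum_comp (MulAut.conj n).toEquiv]
    refine Finset.sum_congr rfl fun x _ => ?_
    have h3 : (MulAut.conj n).toEquiv x = n * x * n⁻¹ := rfl
    rw [h3, hφ x n hn]
    congr 2
    group
  rw [Finset.sum_congr rfl h2, Finset.sum_const, nsmul_eq_mul]
  congr 2
  rw [Set.toFinset_card, Nat.card_eq_fintype_card]
  rfl

theorem ENS_nz {G : Type} [Group G] {Q : Subgroup G} {n : G} (hn : n ∈ nz Q) {x : G} (hx : x ∈ cz Q) :
    n⁻¹ * x * n ∈ cz Q := by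
  have h := cz_conj ((nz Q).inv_mem hn) hx
  rwa [inv_inv] at h

theorem ENS_cjS {G : Type} [Group G] {Q : Subgroup G} {n : G} (hn : n ∈ nz Q) : cjS n (cz Q) = cz Q := by
  ext x
  rw [mem_cjS]
  constructor
  · intro h
    have h1 := cz_conj hn h
    have h2 : n * (n⁻¹ * x * n) * n⁻¹ = x := by group
    rwa [h2] at h1
  · exact fun h => ENS_nz hn h

/-- `cc φ e` for `φ` over `ψ`. -/
theorem ENS_cc (hB2 : B2_stmt) (hIDM : IDM_stmt) (hCCJ : CCJ_stmt) {G : Type} [Group G] [Finite G]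
    (K N : Subgroup G) (hN : N ≤ nz K) (ψ : G → ℂ) (hψ : ψ ∈ IrrOn K) (φ : G → ℂ) (ε : ℕ) (hε : 0 < ε)
    (hK : (1 : G) ∈ K)
    (ho : OverE K N φ ψ ε) (S : Set (G → ℂ)) (hS : S ⊆ IrrOn K) :
    (Nat.card N : ℂ) * cc φ (eS K S) = ({n : G | n ∈ N ∧ cjF n ψ ∈ S}.ncard : ℂ) := by
  classical
  have : Fintype G := Fintype.ofFinite G
  obtain ⟨c1, -, c3, -⟩ := hCCJ G K N hN ψ hψ
  have hOfin : {ψ' : G → ℂ | ∃ n ∈ N, ψ' = funMap (MulAut.conj n) ψ}.Finite := by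
    refine (Set.finite_range (fun n : G => cjF n ψ)).subset ?_
    rintro ψ' ⟨n, -, rfl⟩
    exact ⟨n, rfl⟩
  obtain ⟨i1, i2, -, -⟩ := hIDM G K S hS
  obtain ⟨⟨d, hd, hψ1, -⟩, -⟩ := (hB2 G K).2 ψ hψ
  have hψ0 : ψ 1 ≠ 0 := by
    rw [hψ1]
    exact_mod_cast hd.ne'
  have hO : ∀ ψ' ∈ hOfin.toFinset, ψ' ∈ IrrOn K ∧ ψ' 1 = ψ 1 := by
    intro ψ' h
    rw [Set.Finite.mem_toFinset] at h
    obtain ⟨n, hn, rfl⟩ := h
    exact c1 n hn
  have hsum : ∀ x ∈ K, φ x = ε * ∑ ψ' ∈ hOfin.toFinset, ψ' x := by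
    intro x hx
    rw [ho x hx, finsum_mem_eq_finite_toFinset_sum _ hOfin]
  have hφ1 : φ 1 = ε * ((hOfin.toFinset.card : ℂ) * ψ 1) := by
    rw [hsum 1 hK, Finset.sum_congr rfl fun ψ' h => (hO ψ' h).2, Finset.sum_const, nsmul_eq_mul]
  have hcS : ∀ ψ' ∈ hOfin.toFinset, ∑ x : G, eS K S x * ψ' x = if ψ' ∈ S then ψ 1 else 0 := by
    intro ψ' h
    have h1 := i2 ψ' (hO ψ' h).1
    unfold cc at h1
    rw [finsum_eq_sum_of_fintype, (hO ψ' h).2, div_eq_iff hψ0] at h1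
    rw [h1]
    split_ifs <;> simp
  have hnum : ∑ x : G, eS K S x * φ x = ε * (((hOfin.toFinset.filter fun ψ' => ψ' ∈ S).card : ℂ) * ψ 1) := by
    have h1 : ∀ x : G, eS K S x * φ x = ε * ∑ ψ' ∈ hOfin.toFinset, eS K S x * ψ' x := by
      intro x
      by_cases hx : x ∈ K
      · rw [hsum x hx, ← Finset.mul_sum]
        ring
      · rw [i1.2 x hx]
        simp
    rw [Finset.sum_congr rfl fun x _ => h1 x, ← Finset.mul_sum, Finset.sum_comm, Finset.sum_congr rfl hcS,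
      ← Finset.sum_filter, Finset.sum_const, nsmul_eq_mul]
  have hcard : (hOfin.toFinset.card : ℂ) * Nat.card (stF N ψ) = Nat.card N := by
    rw [← c3]
    push_cast
    congr 2
    rw [← Set.ncard_eq_toFinset_card _ hOfin]
    rfl
  have hne : (hOfin.toFinset.card : ℂ) ≠ 0 := by
    intro h
    rw [h, zero_mul] at hcard
    have h2 : (Nat.card N : ℂ) ≠ 0 := by
      exact_mod_cast (Nat.card_pos (α := N)).ne'
    exact h2 hcard.symm
  have hε' : (ε : ℂ) ≠ 0 := by exact_mod_cast hε.ne'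
  rw [ENS_fib N ψ S]
  have h5 : {ψ' : G → ℂ | (∃ n ∈ N, ψ' = cjF n ψ) ∧ ψ' ∈ S}.ncard =
      (hOfin.toFinset.filter fun ψ' => ψ' ∈ S).card := by
    rw [← Set.ncard_coe_finset]
    congr 1
    ext ψ'
    simp
  rw [h5]
  unfold cc
  rw [finsum_eq_sum_of_fintype, hnum, hφ1, ← hcard]
  push_cast
  field_simp

/-- The condition on `φ` in terms of `ψ`. -/
theorem ENS_stab (hFEQ : FEQ_stmt) {G : Type} [Group G] [Finite G] (M : Ideal (integralClosure ℤ ℂ))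
    (Q : Subgroup G) (θ ψ : G → ℂ) (hψ : ψ ∈ Bl M (cz Q) θ) {n : G} (hn : n ∈ nz Q)
    (h : ∃ ψ' ∈ Bl M (cz Q) θ, cjF n ψ' ∈ Bl M (cz Q) θ) : cjF n ψ ∈ Bl M (cz Q) θ := by
  obtain ⟨ψ', h1, h2⟩ := h
  obtain ⟨-, -, -, f4, -⟩ := hFEQ G M n n Q Q (cz Q) ψ' ψ ψ
  obtain ⟨-, -, -, -, f5, -⟩ := hFEQ G M n n Q Q (cz Q) ψ ψ' ψ
  rw [ENS_cjS hn] at f4 f5
  refine ⟨f4.1 hψ.1, ?_⟩
  have h3 : SB M (cz Q) ψ ψ' := hψ.2.trans h1.2.symm
  exact (f5.1 h3).trans h2.2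

theorem ENS (hIDM : IDM_stmt) (hEXP : EXP_stmt) (hCVF : CVF_stmt) (hCFA : CFA_stmt) (hCCJ : CCJ_stmt)
    (hFOV : FOV_stmt) (hFEQ : FEQ_stmt) (hFSI : FSI_stmt) (hB2 : B2_stmt) : ENS_stmt := by
  classical
  intro p M hM G _ _ D x θ χ hLo Q hQ hor
  have _hc := hCVF
  have hpg : IsPGroup p Q := hLo.rt.dfa.pgrp.to_le hQ
  have : Fintype G := Fintype.ofFinite G
  have hBsub : Bl M (cz Q) θ ⊆ IrrOn (cz Q) := fun ψ h => h.1
  have hKsub : Blk M χ (nz Q) ⊆ IrrOn (nz Q) := fun ψ h => h.1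
  obtain ⟨i1, i2, -, -⟩ := hIDM G (nz Q) (Blk M χ (nz Q)) hKsub
  obtain ⟨e1, -, -, -⟩ := hIDM G (cz Q) (Bl M (cz Q) θ) hBsub
  have hLN : cz Q ≤ nz Q := cz_le_nz Q
  have hNL : nz Q ≤ nz (cz Q) := by
    intro n hn
    rw [Subgroup.mem_normalizer_iff]
    intro l
    constructor
    · exact fun h => cz_conj hn h
    · intro h
      have h1 := ENS_nz hn h
      have h2 : n⁻¹ * (n * l * n⁻¹) * n = l := by group
      rwa [h2] at h1
  set St : Set G := {n : G | n ∈ nz Q ∧ ∃ ψ ∈ Bl M (cz Q) θ, cjF n ψ ∈ Bl M (cz Q) θ} with hSt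
  set z2 : G → ℂ := fun t => ∑ᶠ n ∈ ((nz Q : Subgroup G) : Set G), eBl M (cz Q) θ (n⁻¹ * t * n) with hz2
  set z : G → ℂ := fun t => (St.ncard : ℂ) * eS (nz Q) (Blk M χ (nz Q)) t - z2 t with hz
  have hCF2 : CF (nz Q) z2 := by
    refine ⟨fun h hh y => ?_, fun y hy => ?_⟩
    · rw [hz2]
      refine finsum_mem_eq_of_bijOn (fun n => h⁻¹ * n) ⟨?_, ?_, ?_⟩ ?_
      · exact fun n hn => (nz Q).mul_mem ((nz Q).inv_mem hh) hn
      · exact fun a _ b _ hab => mul_left_cancel hab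
      · exact fun n hn => ⟨h * n, (nz Q).mul_mem hh hn, by simp⟩
      · intro n hn
        congr 1
        group
    · rw [hz2]
      refine finsum_mem_eq_zero_of_forall_eq_zero fun n hn => ?_
      refine e1.2 _ fun h => hy ?_
      have h1 := (nz Q).mul_mem ((nz Q).mul_mem hn (hLN h)) ((nz Q).inv_mem hn)
      have h2 : n * (n⁻¹ * y * n) * n⁻¹ = y := by group
      rwa [h2] at h1
  have hCF : CF (nz Q) z := by
    refine ⟨fun h hh y => ?_, fun y hy => ?_⟩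
    · simp only [hz]
      rw [i1.1 h hh y, hCF2.1 h hh y]
    · simp only [hz]
      rw [i1.2 y hy, hCF2.2 y hy]
      simp
  have hmain : ∀ φ ∈ IrrOn (nz Q), cc φ z = 0 := by
    intro φ hφ
    have hlin : cc φ z = (St.ncard : ℂ) * cc φ (eS (nz Q) (Blk M χ (nz Q))) - cc φ z2 := by
      unfold cc
      rw [finsum_eq_sum_of_fintype, finsum_eq_sum_of_fintype, finsum_eq_sum_of_fintype, ← mul_div_assoc,
        ← sub_div, Finset.mul_sum, ← Finset.sum_sub_distrib]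
      congr 1
      refine Finset.sum_congr rfl fun y _ => ?_
      simp only [hz]
      ring
    obtain ⟨ψ, hψ, ε, hε, ho⟩ := (hCFA G (cz Q) (nz Q) hLN hNL).1 φ hφ
    have hind := hFOV p M hM G Q (nz Q) hpg Subgroup.le_normalizer hLN le_rfl φ hφ ψ hψ ε hε ho χ
    have hφcl : ∀ g, ∀ h ∈ nz Q, φ (h * g * h⁻¹) = φ g := ((hB2 G (nz Q)).2 φ hφ).2.1
    have h1 : cc φ z2 = ({n : G | n ∈ nz Q ∧ cjF n ψ ∈ Bl M (cz Q) θ}.ncard : ℂ) := by
      rw [hz2, ENS_ccj (nz Q) φ _ hφcl]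
      exact ENS_cc hB2 hIDM hCCJ (cz Q) (nz Q) hNL ψ hψ φ ε hε (Subgroup.one_mem _) ho _ hBsub
    rw [hlin, h1, i2 φ hφ]
    by_cases hex : ∃ m ∈ nz Q, cjF m ψ ∈ Bl M (cz Q) θ
    · obtain ⟨m, hm, hmB⟩ := hex
      have hI : Induces M (cjF m ψ) χ := by
        have h2 := (hFSI p M hM G (cz Q) (cz Q) (cjF m ψ) θ).2 (fun y hy => IrrOn_zero hmB.1 hy)
          (fun y hy => IrrOn_zero hLo.rt.th fun h => hy (cz_mono hQ h)) hmB.2 χ
        exact h2.2 hLo.rt.ind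
      have hIψ : Induces M ψ χ := by
        obtain ⟨-, -, -, -, -, f6, -⟩ := hFEQ G M m m Q Q (cz Q) ψ ψ χ
        exact (f6 hLo.rt.chi).2.1 hI
      have hφB : φ ∈ Blk M χ (nz Q) := ⟨hφ, hind.2 hIψ⟩
      rw [if_pos hφB, mul_one]
      have hcard : {n : G | n ∈ nz Q ∧ cjF n ψ ∈ Bl M (cz Q) θ}.ncard = St.ncard := by
        rw [← Set.ncard_image_of_injective St (mul_left_injective m)]
        congr 1
        ext n
        constructor
        · rintro ⟨hn, hnB⟩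
          refine ⟨n * m⁻¹, ⟨(nz Q).mul_mem hn ((nz Q).inv_mem hm), cjF m ψ, hmB, ?_⟩, by simp⟩
          rw [ENS_mul]
          have h3 : n * m⁻¹ * m = n := by group
          rw [h3]
          exact hnB
        · rintro ⟨k, ⟨hk, hk2⟩, rfl⟩
          refine ⟨(nz Q).mul_mem hk hm, ?_⟩
          change cjF (k * m) ψ ∈ _
          rw [← ENS_mul]
          exact ENS_stab hFEQ M Q θ _ hmB hk hk2
      rw [hcard, sub_self]
    · have hφB : φ ∉ Blk M χ (nz Q) := by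
        intro h
        exact hex (hor ψ hψ (hind.1 h.2))
      have hemp : {n : G | n ∈ nz Q ∧ cjF n ψ ∈ Bl M (cz Q) θ} = ∅ := by
        ext n
        simp only [Set.mem_ofPred_eq, Set.mem_empty_iff_false, iff_false]
        rintro ⟨hn, hnB⟩
        exact hex ⟨n, hn, hnB⟩
      rw [if_neg hφB, hemp]
      simp
  have hz0 := hEXP G (nz Q) z hCF hmain
  intro t
  have h1 := congrFun hz0 t
  simp only [hz, Pi.zero_apply] at h1
  exact sub_eq_zero.1 h1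

end Pool.Agent.LE
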