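import Pool.Agent.helper70.LE.SpecN
import Pool.Agent.helper59.FI.Base

/-!
# Project LE, row LFN
-/

set_option autoImplicit false

namespace Pool.Agent.LE

open Pool.Agent.helper58.DC Pool.Agent.DI Pool.Agent.GR Pool.Agent.OB Pool.Agent.DR Pool.Agent.FI Pool.Agent.FI3 Pool.Agent.FI4

theorem LFN_preg {G : Type} [Group G] (p : ℕ) (n v : G) : PReg p (n * v * n⁻¹) ↔ PReg p v := by
  unfold PReg
  have h : orderOf (n * v * n⁻¹) = orderOf v :=
    orderOf_injective (MulAut.conj n).toMonoidHom (MulAut.conj n).injective v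
  rw [h]

theorem LFN (hENS : ENS_stmt) (hIDM : IDM_stmt) (hBCL : BCL_stmt) (hB2 : B2_stmt) : LFN_stmt := by
  classical
  intro p M hM G _ _ D x θ χ hLo Q hQ hor
  have : Fintype G := Fintype.ofFinite G
  have hens := hENS p M hM G D x θ χ hLo Q hQ hor
  have hKsub : Blk M χ (nz Q) ⊆ IrrOn (nz Q) := (hBCL G M χ (nz Q)).sub
  obtain ⟨i1, -, -, i4⟩ := hIDM G (nz Q) (Blk M χ (nz Q)) hKsub
  have hfin : (Blk M χ (nz Q)).Finite := (hB2 G (nz Q)).1.subset hKsub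
  set St : Set G := {n : G | n ∈ nz Q ∧ ∃ ψ ∈ Bl M (cz Q) θ, cjF n ψ ∈ Bl M (cz Q) θ} with hSt
  set V : Set G := {v : G | v ∈ nz Q ∧ PReg p v} with hV
  set N : Set G := ((nz Q : Subgroup G) : Set G) with hN
  set E : G → ℂ := eS (nz Q) (Blk M χ (nz Q)) with hE
  set e : G → ℂ := eBl M (cz Q) θ with he
  have hN0 : (Nat.card (nz Q) : ℂ) ≠ 0 := by
    exact_mod_cast (Nat.card_pos (α := nz Q)).ne'
  -- LL as a sum of `Sf`
  have h1 : (Nat.card (nz Q) : ℂ) * LL p M χ (nz Q) = ∑ v ∈ V.toFinset, Sf (Blk M χ (nz Q)) v v := by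
    unfold LL EE Sf
    rw [finsum_mem_eq_finite_toFinset_sum _ hfin, Finset.mul_sum]
    have h2 : ∀ φ ∈ hfin.toFinset, (Nat.card (nz Q) : ℂ) *
        ((∑ᶠ v ∈ {v : G | v ∈ nz Q ∧ PReg p v}, φ v * φ v⁻¹) / Nat.card (nz Q)) =
        ∑ v ∈ V.toFinset, φ v * φ v⁻¹ := by
      intro φ _
      rw [mul_div_cancel₀ _ hN0, finsum_mem_eq_toFinset_sum]
    rw [Finset.sum_congr rfl h2, Finset.sum_comm]
    refine Finset.sum_congr rfl fun v _ => ?_
    rw [finsum_mem_eq_finite_toFinset_sum _ hfin]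
  have h3 : ∀ v ∈ nz Q, Sf (Blk M χ (nz Q)) v v = ∑ z ∈ N.toFinset, E (v * z * v⁻¹ * z⁻¹) := by
    intro v hv
    rw [← i4 v hv v hv, finsum_mem_eq_toFinset_sum]
    refine Finset.sum_nbij' (fun z => z⁻¹) (fun z => z⁻¹) ?_ ?_ ?_ ?_ ?_
    · intro z hz
      rw [Set.mem_toFinset] at hz ⊢
      exact (nz Q).inv_mem hz
    · intro z hz
      rw [Set.mem_toFinset] at hz ⊢
      exact (nz Q).inv_mem hz
    · intro z _
      simp
    · intro z _
      simp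
    · intro z _
      have h4 := i1.1 v hv (z⁻¹ * v⁻¹ * z * v)
      rw [← h4]
      congr 1
      group
  have h5 : (Nat.card (nz Q) : ℂ) * ((St.ncard : ℂ) * LL p M χ (nz Q)) =
      ∑ v ∈ V.toFinset, ∑ z ∈ N.toFinset, ∑ n ∈ N.toFinset, e (n⁻¹ * (v * z * v⁻¹ * z⁻¹) * n) := by
    have h6 : (Nat.card (nz Q) : ℂ) * ((St.ncard : ℂ) * LL p M χ (nz Q)) =
        (St.ncard : ℂ) * ((Nat.card (nz Q) : ℂ) * LL p M χ (nz Q)) := by ring
    rw [h6, h1, Finset.mul_sum]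
    refine Finset.sum_congr rfl fun v hv => ?_
    rw [Set.mem_toFinset] at hv
    rw [h3 v hv.1, Finset.mul_sum]
    refine Finset.sum_congr rfl fun z _ => ?_
    rw [hens, finsum_mem_eq_toFinset_sum]
  have h7 : ∀ n ∈ N.toFinset, ∑ v ∈ V.toFinset, ∑ z ∈ N.toFinset, e (n⁻¹ * (v * z * v⁻¹ * z⁻¹) * n) =
      ∑ v ∈ V.toFinset, ∑ z ∈ N.toFinset, e (v * z * v⁻¹ * z⁻¹) := by
    intro n hn
    rw [Set.mem_toFinset] at hn
    have hn' : n⁻¹ ∈ nz Q := (nz Q).inv_mem hn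
    have hn'' : n ∈ nz Q := hn
    refine Finset.sum_nbij' (fun v => n⁻¹ * v * n) (fun v => n * v * n⁻¹) ?_ ?_ ?_ ?_ ?_
    · intro v hv
      rw [Set.mem_toFinset] at hv ⊢
      refine ⟨(nz Q).mul_mem ((nz Q).mul_mem hn' hv.1) hn'', ?_⟩
      have h8 := (LFN_preg p n⁻¹ v).2 hv.2
      rwa [inv_inv] at h8
    · intro v hv
      rw [Set.mem_toFinset] at hv ⊢
      exact ⟨(nz Q).mul_mem ((nz Q).mul_mem hn'' hv.1) hn', (LFN_preg p n v).2 hv.2⟩
    · intro v _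
      group
    · intro v _
      group
    · intro v _
      refine Finset.sum_nbij' (fun z => n⁻¹ * z * n) (fun z => n * z * n⁻¹) ?_ ?_ ?_ ?_ ?_
      · intro z hz
        rw [Set.mem_toFinset] at hz ⊢
        exact (nz Q).mul_mem ((nz Q).mul_mem hn' hz) hn''
      · intro z hz
        rw [Set.mem_toFinset] at hz ⊢
        exact (nz Q).mul_mem ((nz Q).mul_mem hn'' hz) hn'
      · intro z _
        group
      · intro z _
        group
      · intro z _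
        congr 1
        group
  have h9 : (Nat.card (nz Q) : ℂ) * ((St.ncard : ℂ) * LL p M χ (nz Q)) =
      (Nat.card (nz Q) : ℂ) * ∑ v ∈ V.toFinset, ∑ z ∈ N.toFinset, e (v * z * v⁻¹ * z⁻¹) := by
    rw [h5]
    have h10 : ∑ v ∈ V.toFinset, ∑ z ∈ N.toFinset, ∑ n ∈ N.toFinset, e (n⁻¹ * (v * z * v⁻¹ * z⁻¹) * n) =
        ∑ n ∈ N.toFinset, ∑ v ∈ V.toFinset, ∑ z ∈ N.toFinset, e (n⁻¹ * (v * z * v⁻¹ * z⁻¹) * n) := by
      exact (Finset.sum_congr rfl fun v _ => Finset.sum_comm).trans Finset.sum_comm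
    rw [h10, Finset.sum_congr rfl h7, Finset.sum_const, nsmul_eq_mul]
    congr 2
    rw [Set.toFinset_card, Nat.card_eq_fintype_card]
    rfl
  have h11 := mul_left_cancel₀ hN0 h9
  rw [h11, finsum_mem_eq_toFinset_sum]
  refine Finset.sum_congr rfl fun v _ => ?_
  rw [finsum_mem_eq_toFinset_sum]

end Pool.Agent.LE
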