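import Pool.Agent.helper66.LE.TI
import Pool.Agent.helper66.LE.RU
import Pool.Agent.helper66.LE.DL

/-!
# Consequences of the lace expansion output (module lf:GO)
-/

set_option autoImplicit false

open Finset Classical

namespace Pool.Agent.helper66.LE

section GO
variable (d L : ℕ) [NeZero L]

/-- what the lace expansion gives at `q`. -/
def GoodB (C q : ℝ) : Prop :=
  2 * d * q ≤ 2 ∧
  (∀ a, q * conv (J (uv d (ZMod L))) (conv (tt d L q) (conv (tt d L q) (tt d L q))) a ≤ 1 / 100) ∧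
  ∀ i : Fin d, ∑ x, (ab i x) ^ 2 * tt d L q x ≤ C * (chi d L q) ^ 2

/-- the derivative of the susceptibility. -/
noncomputable def dchi (q : ℝ) : ℝ := ∑ x : Tor d L, dtau q (uv d (ZMod L)) x

variable {d L}

theorem hasDerivAt_chi (hL : 3 ≤ L) (q : ℝ) : HasDerivAt (chi d L) (dchi d L q) q := by
  have h : ∀ x ∈ (univ : Finset (Tor d L)), HasDerivAt (fun q => tau q (uv d (ZMod L)) x)
      (dtau q (uv d (ZMod L)) x) q := fun x _ =>
    hasDerivAt_tau q (uv_neg d (ZMod L)) (zero_notMem_uv d hL) x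
  exact HasDerivAt.fun_sum h

theorem GO_conv_J {G : Type*} [AddCommGroup G] [Fintype G] (S : Finset G) (f : G → ℝ) (a : G) :
    conv (J S) f a = ∑ s ∈ S, f (a - s) := by
  unfold conv J
  simp only [ite_mul, one_mul, zero_mul]
  rw [← Finset.sum_filter]
  congr 1
  ext x
  simp

theorem GO_q {C q : ℝ} (hd : 100 ≤ d) (hG : GoodB d L C q) : d * q ≤ 1 ∧ q ≤ 1 / 100 := by
  have h1 := hG.1
  have hd' : (100 : ℝ) ≤ d := by exact_mod_cast hd
  constructor
  · nlinarith
  · by_contra hc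
    push Not at hc
    nlinarith

theorem dchi_ge' {C q : ℝ} (hd : 100 ≤ d) (hL : 3 ≤ L) (h0 : 0 ≤ q) (hG : GoodB d L C q) :
    1.8 * d * (chi d L q) ^ 2 ≤ dchi d L q := by
  obtain ⟨hdq, hq⟩ := GO_q hd hG
  have h1 : q ≤ 1 := by linarith
  have hd' : (100 : ℝ) ≤ d := by exact_mod_cast hd
  have hge := dchi_ge (G := Tor d L) (q := q) (S := uv d (ZMod L)) h0 h1 (uv_neg d (ZMod L))
    (zero_notMem_uv d hL)
  rw [card_uv d hL] at hge
  have hconv : conv (J (uv d (ZMod L))) (conv (tau q (uv d (ZMod L)))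
      (conv (tau q (uv d (ZMod L))) (tau q (uv d (ZMod L))))) 0 ≤ 2 * d * (3 / 100) := by
    rw [GO_conv_J]
    have hs : ∀ s ∈ uv d (ZMod L), conv (tau q (uv d (ZMod L)))
        (conv (tau q (uv d (ZMod L))) (tau q (uv d (ZMod L)))) (0 - s) ≤ 3 / 100 := by
      intro s hs
      have hs0 : (0 : Tor d L) - s ≠ 0 := by
        intro h
        have : s = 0 := by
          rw [sub_eq_zero] at h
          exact h.symm
        rw [this] at hs
        exact zero_notMem_uv d hL hs
      have ht := triangle_step (G := Tor d L) (q := q) (S := uv d (ZMod L)) h0 h1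
        (uv_neg d (ZMod L)) hs0
      have hg := hG.2.1 (0 - s)
      have hg' : q * conv (J (uv d (ZMod L))) (conv (tau q (uv d (ZMod L)))
        (conv (tau q (uv d (ZMod L))) (tau q (uv d (ZMod L))))) (0 - s) ≤ 1 / 100 := hg
      linarith
    refine (Finset.sum_le_sum hs).trans (le_of_eq ?_)
    rw [Finset.sum_const, card_uv d hL, nsmul_eq_mul]
    push_cast
    ring
  have hchi : (∑ x, tau q (uv d (ZMod L)) x) = chi d L q := rfl
  rw [hchi] at hge
  have hfac : 1.8 * (d : ℝ) ≤ ((2 * d : ℕ) : ℝ) * (1 - q) -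
      conv (J (uv d (ZMod L))) (conv (tau q (uv d (ZMod L)))
      (conv (tau q (uv d (ZMod L))) (tau q (uv d (ZMod L))))) 0 := by
    push_cast
    nlinarith
  calc 1.8 * d * (chi d L q) ^ 2 = (chi d L q) ^ 2 * (1.8 * d) := by ring
    _ ≤ (chi d L q) ^ 2 * _ := mul_le_mul_of_nonneg_left hfac (sq_nonneg _)
    _ ≤ _ := hge

theorem chi_gap {C q₁ q₂ : ℝ} (hd : 100 ≤ d) (hL : 3 ≤ L) (h0 : 0 ≤ q₁) (h : q₁ ≤ q₂)
    (hG : ∀ q, q₁ ≤ q → q ≤ q₂ → GoodB d L C q) :
    1.8 * d * (q₂ - q₁) ≤ 1 / chi d L q₁ - 1 / chi d L q₂ := by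
  have hpos : ∀ q ∈ Set.Icc q₁ q₂, 1 ≤ chi d L q := by
    intro q hq
    have := (GO_q hd (hG q hq.1 hq.2)).2
    exact one_le_chi (le_trans h0 hq.1) (by linarith)
  have hder : ∀ q ∈ Set.Icc q₁ q₂, HasDerivAt (fun q => 1 / chi d L q + 1.8 * d * q)
      (-(dchi d L q) / (chi d L q) ^ 2 + 1.8 * d) q := by
    intro q hq
    have hne : chi d L q ≠ 0 := by
      have := hpos q hq
      linarith
    have h1 : HasDerivAt (fun q => 1 / chi d L q) (-(dchi d L q) / (chi d L q) ^ 2) q := by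
      have := (hasDerivAt_chi (d := d) hL q).inv hne
      refine this.congr_of_eventuallyEq ?_
      filter_upwards with y
      simp
    have h2 : HasDerivAt (fun q : ℝ => 1.8 * d * q) (1.8 * d) q := by
      simpa using (hasDerivAt_id q).const_mul (1.8 * (d : ℝ))
    exact h1.add h2
  have hanti : AntitoneOn (fun q => 1 / chi d L q + 1.8 * d * q) (Set.Icc q₁ q₂) := by
    apply antitoneOn_of_deriv_nonpos (convex_Icc _ _)
    · intro q hq
      exact (hder q hq).continuousAt.continuousWithinAt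
    · intro q hq
      rw [interior_Icc] at hq
      exact (hder q ⟨hq.1.le, hq.2.le⟩).differentiableAt.differentiableWithinAt
    · intro q hq
      rw [interior_Icc] at hq
      have hq' : q ∈ Set.Icc q₁ q₂ := ⟨hq.1.le, hq.2.le⟩
      rw [(hder q hq').deriv]
      have h1 := dchi_ge' hd hL (le_trans h0 hq'.1) (hG q hq'.1 hq'.2)
      have h2 := hpos q hq'
      have h3 : 0 < (chi d L q) ^ 2 := by positivity
      have : 1.8 * (d : ℝ) ≤ dchi d L q / (chi d L q) ^ 2 := by
        rw [le_div_iff₀ h3]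
        exact h1
      rw [neg_div]
      linarith
  have := hanti (Set.left_mem_Icc.2 h) (Set.right_mem_Icc.2 h) h
  simp only at this
  linarith

end GO

end Pool.Agent.helper66.LE
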