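import Pool.Agent.helper9.LE.TD
import Pool.Agent.helper73.LE.TK

/-!
# Passage times on the torus (module lf:TB)
-/

set_option autoImplicit false

open Finset Classical

namespace Pool.Agent.helper66.LE

section TB
variable {d L : ℕ} [NeZero L]

theorem TB_J_nonneg {G : Type*} [AddCommGroup G] (S : Finset G) (x : G) : 0 ≤ J S x := by
  unfold J
  split_ifs <;> norm_num

/-- the probability of `T(0,x) ≤ k` on the torus. -/
noncomputable def TB_t (d L : ℕ) [NeZero L] (q : ℝ) (k : ℕ) (x : Tor d L) : ℝ :=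
  Pr q (cay (uv d (ZMod L))) (fun F => PT (cay (uv d (ZMod L))) F k 0 x)

theorem TB_t_nonneg {q : ℝ} (h0 : 0 ≤ q) (h1 : q ≤ 1) (k : ℕ) (x : Tor d L) :
    0 ≤ TB_t d L q k x := Pr_nonneg h0 h1 _ _

theorem TB_t_zero (q : ℝ) (x : Tor d L) : TB_t d L q 0 x = tt d L q x := by
  unfold TB_t tt tau
  exact Pr_congr fun F hF => PT_zero_iff hF 0 x

theorem TB_t_succ {q : ℝ} (h0 : 0 ≤ q) (h1 : q ≤ 1) (k : ℕ) (x : Tor d L) :
    TB_t d L q (k + 1) x ≤ TB_t d L q k x +
      conv (conv (TB_t d L q k) (J (uv d (ZMod L)))) (tt d L q) x := by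
  refine (pt_succ_le h0 h1 (cay (uv d (ZMod L))) k 0 x).trans (le_of_eq ?_)
  congr 1
  unfold conv
  rw [Finset.sum_comm]
  refine Finset.sum_congr rfl fun w _ => ?_
  rw [Finset.sum_mul]
  refine Finset.sum_congr rfl fun u _ => ?_
  unfold J
  by_cases h : w - u ∈ uv d (ZMod L)
  · rw [if_pos ((mem_cay (uv_neg d (ZMod L)) u w).2 h), if_pos h, mul_one, tau_sub]
    rfl
  · rw [if_neg (fun h' => h ((mem_cay (uv_neg d (ZMod L)) u w).1 h')), if_neg h]
    ring

theorem TB_conv_nonneg {G : Type*} [AddCommGroup G] [Fintype G] {f g : G → ℝ}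
    (hf : ∀ x, 0 ≤ f x) (hg : ∀ x, 0 ≤ g x) (x : G) : 0 ≤ conv f g x :=
  Finset.sum_nonneg fun _ _ => mul_nonneg (hf _) (hg _)

theorem TB_sum (hL : 3 ≤ L) (i : Fin d) (l : ℝ) {q : ℝ} (h0 : 0 ≤ q) (h1 : q ≤ 1) (k : ℕ) :
    ∑ x, Real.cosh (l * ab i x) * TB_t d L q k x ≤
      chl d L i l q * (1 + 2 * d * Real.cosh l * chl d L i l q) ^ k := by
  have hchl : 0 ≤ chl d L i l q := by
    unfold chl
    exact Finset.sum_nonneg fun x _ => mul_nonneg (Real.cosh_pos _).le (tau_nonneg h0 h1 _ _)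
  induction k with
  | zero =>
    rw [pow_zero, mul_one]
    unfold chl
    simp only [TB_t_zero]
    exact le_rfl
  | succ k ih =>
    set s := ∑ x, Real.cosh (l * ab i x) * TB_t d L q k x with hs
    have hs0 : 0 ≤ s :=
      Finset.sum_nonneg fun x _ => mul_nonneg (Real.cosh_pos _).le (TB_t_nonneg h0 h1 _ _)
    have hJ : ∑ x, Real.cosh (l * ab i x) * J (uv d (ZMod L)) x ≤ 2 * d * Real.cosh l := by
      rw [tilt_J hL i l]
      have hd : (1 : ℝ) ≤ d := by
        have : 0 < d := Fin.pos i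
        exact_mod_cast this
      nlinarith [Real.one_le_cosh l]
    have hc0 : ∀ x, 0 ≤ conv (TB_t d L q k) (J (uv d (ZMod L))) x := fun x =>
      TB_conv_nonneg (TB_t_nonneg h0 h1 k) (TB_J_nonneg _) x
    have a1 := tilt_conv i l (conv (TB_t d L q k) (J (uv d (ZMod L)))) (tt d L q) hc0
      (fun x => tau_nonneg h0 h1 _ x) (fun x => tt_reflect i x)
    have a2 := tilt_conv i l (TB_t d L q k) (J (uv d (ZMod L))) (TB_t_nonneg h0 h1 k)
      (TB_J_nonneg _) (fun x => td_J_refl i x)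
    have a3 : ∑ x, Real.cosh (l * ab i x) * conv (TB_t d L q k) (J (uv d (ZMod L))) x ≤
        s * (2 * d * Real.cosh l) := a2.trans (mul_le_mul_of_nonneg_left hJ hs0)
    have a4 : ∑ x, Real.cosh (l * ab i x) *
        conv (conv (TB_t d L q k) (J (uv d (ZMod L)))) (tt d L q) x ≤
        s * (2 * d * Real.cosh l) * chl d L i l q :=
      a1.trans (mul_le_mul_of_nonneg_right a3 hchl)
    have a5 : ∑ x, Real.cosh (l * ab i x) * TB_t d L q (k + 1) x ≤
        s + ∑ x, Real.cosh (l * ab i x) *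
          conv (conv (TB_t d L q k) (J (uv d (ZMod L)))) (tt d L q) x := by
      rw [hs, ← Finset.sum_add_distrib]
      refine Finset.sum_le_sum fun x _ => ?_
      rw [← mul_add]
      exact mul_le_mul_of_nonneg_left (TB_t_succ h0 h1 k x) (Real.cosh_pos _).le
    have hfac : 0 ≤ 1 + 2 * d * Real.cosh l * chl d L i l q := by
      have := (Real.cosh_pos l).le
      positivity
    calc ∑ x, Real.cosh (l * ab i x) * TB_t d L q (k + 1) x
        ≤ s + s * (2 * d * Real.cosh l) * chl d L i l q := a5.trans (by linarith)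
      _ = s * (1 + 2 * d * Real.cosh l * chl d L i l q) := by ring
      _ ≤ chl d L i l q * (1 + 2 * d * Real.cosh l * chl d L i l q) ^ k *
          (1 + 2 * d * Real.cosh l * chl d L i l q) := mul_le_mul_of_nonneg_right ih hfac
      _ = _ := by ring

theorem pt_bound (hL : 3 ≤ L) (i : Fin d) (l : ℝ) {q : ℝ} (h0 : 0 ≤ q) (h1 : q ≤ 1) (k : ℕ) (x : Tor d L) :
    Real.cosh (l * ab i x) * Pr q (cay (uv d (ZMod L))) (fun F => PT (cay (uv d (ZMod L))) F k 0 x) ≤
      chl d L i l q * (1 + 2 * d * Real.cosh l * chl d L i l q) ^ k := by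
  refine le_trans ?_ (TB_sum hL i l h0 h1 k)
  exact Finset.single_le_sum (f := fun x => Real.cosh (l * ab i x) * TB_t d L q k x)
    (fun y _ => mul_nonneg (Real.cosh_pos _).le (TB_t_nonneg h0 h1 k y)) (Finset.mem_univ x)

end TB

end Pool.Agent.helper66.LE
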