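import Pool.Agent.helper9.LE.TD
import Pool.Agent.helper62.LE.GO

/-!
# Comparison argument for the tilted susceptibility (module lf:TC)
-/

set_option autoImplicit false

open Finset Classical

namespace Pool.Agent.helper66.LE

section TC
variable {d L : ℕ} [NeZero L]

theorem TC_cosh {l : ℝ} (h0 : 0 < l) (h1 : l ≤ 1) :
    Real.cosh l - 1 ≤ l ^ 2 ∧ Real.cosh l - 1 - l ^ 2 / 2 ≤ l ^ 4 := by
  have hl2 : l ^ 2 ≤ 1 := by nlinarith
  have hl2' : 0 < l ^ 2 := by positivity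
  have hb := Real.cosh_le_exp_half_sq l
  have hy : |l ^ 2 / 2| ≤ 1 := by
    rw [abs_of_pos (by positivity)]
    linarith
  have he := Real.abs_exp_sub_one_sub_id_le hy
  have he' := (abs_le.1 he).2
  constructor
  · nlinarith
  · nlinarith [sq_nonneg (l ^ 2)]

theorem TC_chl_eq (i : Fin d) (l q : ℝ) : chl d L i l q = chi d L q + taa d L i l q := by
  unfold chl chi taa
  rw [← Finset.sum_add_distrib]
  exact Finset.sum_congr rfl fun x _ => by ring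

theorem TC_taa_eq (i : Fin d) (l q : ℝ) :
    taa d L i l q = l ^ 2 / 2 * ∑ x, (ab i x) ^ 2 * tt d L q x + trr d L i l q := by
  unfold taa trr
  rw [Finset.mul_sum, ← Finset.sum_add_distrib]
  exact Finset.sum_congr rfl fun x _ => by ring

theorem TC_taa_nonneg (i : Fin d) (l : ℝ) {q : ℝ} (h0 : 0 ≤ q) (h1 : q ≤ 1) :
    0 ≤ taa d L i l q := by
  unfold taa
  refine Finset.sum_nonneg fun x _ => mul_nonneg ?_ (tau_nonneg h0 h1 _ _)
  linarith [Real.one_le_cosh (l * ab i x)]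

theorem TC_trr_zero (i : Fin d) (l : ℝ) : trr d L i l 0 = 0 := by
  unfold trr
  refine Finset.sum_eq_zero fun x _ => ?_
  by_cases hx : x = 0
  · subst hx
    have : ab i (0 : Tor d L) = 0 := by
      unfold ab
      simp
    rw [this]
    simp
  · have h1 := tau_le_step (q := 0) le_rfl zero_le_one (uv_neg d (ZMod L)) hx
    rw [zero_mul] at h1
    have h2 := tau_nonneg (q := 0) le_rfl zero_le_one (uv d (ZMod L)) x
    have : tt d L 0 x = 0 := le_antisymm h1 h2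
    rw [this, mul_zero]

/-- the derivative at a point of contact. -/
theorem TC_contact {C A K : ℝ} (hA : A = (C + 1) / 2) (hK : K = 3 * (A + 1) ^ 2) (hC : 0 < C)
    (i : Fin d) {l q : ℝ} (hd : 100 ≤ d) (hL : 3 ≤ L) (h0 : 0 ≤ q) (hG : GoodB d L C q)
    (hl : 0 < l) (hl1 : l ^ 2 ≤ 1) (hc : K * (l ^ 2 * chi d L q) ≤ 1 / 2)
    (hr : trr d L i l q = K * l ^ 4 * (chi d L q) ^ 3) :
    dtrr d L i l q < K * l ^ 4 * (3 * (chi d L q) ^ 2 * dchi d L q) := by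
  obtain ⟨hdq, hq⟩ := GO_q hd hG
  have h1 : q ≤ 1 := by linarith
  have hd' : (100 : ℝ) ≤ d := by exact_mod_cast hd
  have hX : 1 ≤ chi d L q := one_le_chi h0 h1
  have hl' : l ≤ 1 := by
    by_contra hh
    push Not at hh
    nlinarith
  obtain ⟨hc1, hc2⟩ := TC_cosh hl hl'
  have hA0 : 0 < A := by rw [hA]; linarith
  have hK0 : 0 < K := by rw [hK]; positivity
  have ha0 := TC_taa_nonneg (L := L) i l h0 h1
  have hD := dtrr_le hL i l h0 h1
  have hDX := dchi_ge' hd hL h0 hG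
  have hM := hG.2.2 i
  have ha := TC_taa_eq (L := L) i l q
  set X := chi d L q with hXdef
  set a := taa d L i l q with hadef
  set r := trr d L i l q with hrdef
  set M := ∑ x, (ab i x) ^ 2 * tt d L q x with hMdef
  have hX2 : 0 < X ^ 2 := by positivity
  have ha1 : a ≤ A * l ^ 2 * X ^ 2 := by
    have e1 : l ^ 2 / 2 * M ≤ l ^ 2 / 2 * (C * X ^ 2) :=
      mul_le_mul_of_nonneg_left hM (by positivity)
    have e2 : K * l ^ 4 * X ^ 3 = (K * (l ^ 2 * X)) * (l ^ 2 * X ^ 2) := by ring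
    have e3 : (K * (l ^ 2 * X)) * (l ^ 2 * X ^ 2) ≤ 1 / 2 * (l ^ 2 * X ^ 2) :=
      mul_le_mul_of_nonneg_right hc (by positivity)
    rw [ha, hr, e2, hA]
    nlinarith
  have ha2 : a ^ 2 ≤ (A * l ^ 2 * X ^ 2) ^ 2 := pow_le_pow_left₀ ha0 ha1 2
  have hcosh0 : 0 ≤ Real.cosh l - 1 := by linarith [Real.one_le_cosh l]
  have t1 : (Real.cosh l - 1) * a * X ≤ l ^ 2 * (A * l ^ 2 * X ^ 2) * X := by
    refine mul_le_mul_of_nonneg_right ?_ (by linarith)
    exact mul_le_mul hc1 ha1 ha0 (by positivity)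
  have t2 : (Real.cosh l - 1) * a ^ 2 ≤ l ^ 2 * (A * l ^ 2 * X ^ 2) ^ 2 :=
    mul_le_mul hc1 ha2 (sq_nonneg _) (by positivity)
  have t3 : (Real.cosh l - 1 - l ^ 2 / 2) * X ^ 2 ≤ l ^ 4 * X ^ 2 :=
    mul_le_mul_of_nonneg_right hc2 (by positivity)
  have hl4 : 0 < l ^ 4 * X ^ 4 := by positivity
  -- bounds by l^4 X^4
  have s1 : l ^ 2 * (A * l ^ 2 * X ^ 2) * X ≤ A * (l ^ 4 * X ^ 4) := by
    have : l ^ 2 * (A * l ^ 2 * X ^ 2) * X = A * (l ^ 4 * X ^ 3) := by ring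
    rw [this]
    have : X ^ 3 ≤ X ^ 4 := pow_le_pow_right₀ hX (by norm_num)
    have : l ^ 4 * X ^ 3 ≤ l ^ 4 * X ^ 4 := mul_le_mul_of_nonneg_left this (by positivity)
    exact mul_le_mul_of_nonneg_left this hA0.le
  have s2 : l ^ 2 * (A * l ^ 2 * X ^ 2) ^ 2 ≤ A ^ 2 * (l ^ 4 * X ^ 4) := by
    have e : l ^ 2 * (A * l ^ 2 * X ^ 2) ^ 2 = l ^ 2 * (A ^ 2 * (l ^ 4 * X ^ 4)) := by ring
    rw [e]
    have : 0 ≤ A ^ 2 * (l ^ 4 * X ^ 4) := by positivity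
    nlinarith
  have s3 : l ^ 4 * X ^ 2 ≤ l ^ 4 * X ^ 4 := by
    have : X ^ 2 ≤ X ^ 4 := pow_le_pow_right₀ hX (by norm_num)
    exact mul_le_mul_of_nonneg_left this (by positivity)
  have s4 : 4 * d * X * r = 4 * d * K * (l ^ 4 * X ^ 4) := by rw [hr]; ring
  have s5 : 2 * (d : ℝ) * a ^ 2 ≤ 2 * d * A ^ 2 * (l ^ 4 * X ^ 4) := by
    have : 2 * (d : ℝ) * a ^ 2 ≤ 2 * d * (A * l ^ 2 * X ^ 2) ^ 2 :=
      mul_le_mul_of_nonneg_left ha2 (by positivity)
    refine this.trans (le_of_eq ?_)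
    ring
  have up : dtrr d L i l q ≤
      (4 * d * K + 2 * d * A ^ 2 + 4 * A + 2 * A ^ 2 + 2) * (l ^ 4 * X ^ 4) := by
    nlinarith
  have low : 5.4 * d * K * (l ^ 4 * X ^ 4) ≤ K * l ^ 4 * (3 * X ^ 2 * dchi d L q) := by
    have e : 5.4 * d * K * (l ^ 4 * X ^ 4) = (K * l ^ 4 * (3 * X ^ 2)) * (1.8 * d * X ^ 2) := by
      ring
    rw [e]
    have : K * l ^ 4 * (3 * X ^ 2 * dchi d L q) = (K * l ^ 4 * (3 * X ^ 2)) * dchi d L q := by ring
    rw [this]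
    exact mul_le_mul_of_nonneg_left hDX (by positivity)
  have hcomp : 4 * d * K + 2 * d * A ^ 2 + 4 * A + 2 * A ^ 2 + 2 < 5.4 * d * K := by
    rw [hK]
    nlinarith [mul_pos hA0 hA0]
  have := mul_lt_mul_of_pos_right hcomp hl4
  linarith

theorem tilt (C : ℝ) (hC : 0 < C) : ∃ c : ℝ, 0 < c ∧ ∀ (d L : ℕ) [NeZero L] (i : Fin d) (l q : ℝ),
    100 ≤ d → 3 ≤ L → 0 ≤ q → (∀ q', 0 ≤ q' → q' ≤ q → GoodB d L C q') → 0 < l →
    l ^ 2 * chi d L q ≤ c → chl d L i l q ≤ 2 * chi d L q := by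
  obtain ⟨A, hA⟩ : ∃ A : ℝ, A = (C + 1) / 2 := ⟨_, rfl⟩
  obtain ⟨K, hK⟩ : ∃ K : ℝ, K = 3 * (A + 1) ^ 2 := ⟨_, rfl⟩
  have hA0 : 0 < A := by rw [hA]; linarith
  have hK0 : 0 < K := by rw [hK]; positivity
  refine ⟨min 1 (min (1 / (2 * K)) (1 / A)), by positivity, ?_⟩
  intro d L _ i l q hd hL h0 hG hl hc
  have hq1 : ∀ q', 0 ≤ q' → q' ≤ q → q' ≤ 1 := fun q' h0' h' => by
    have := (GO_q hd (hG q' h0' h')).2
    linarith
  have hcl : l ^ 2 * chi d L q ≤ 1 := hc.trans (min_le_left _ _)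
  have hcK : l ^ 2 * chi d L q ≤ 1 / (2 * K) :=
    hc.trans ((min_le_right _ _).trans (min_le_left _ _))
  have hcA : l ^ 2 * chi d L q ≤ 1 / A :=
    hc.trans ((min_le_right _ _).trans (min_le_right _ _))
  have hX : 1 ≤ chi d L q := one_le_chi h0 (hq1 q h0 le_rfl)
  have hl1 : l ^ 2 ≤ 1 := by nlinarith [sq_nonneg l]
  have hKc : ∀ q', 0 ≤ q' → q' ≤ q → K * (l ^ 2 * chi d L q') ≤ 1 / 2 := by
    intro q' h0' h'
    have h1 := chi_mono (d := d) (L := L) h0' h' (hq1 q h0 le_rfl)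
    have h2 : l ^ 2 * chi d L q' ≤ l ^ 2 * chi d L q :=
      mul_le_mul_of_nonneg_left h1 (sq_nonneg _)
    have h3 : l ^ 2 * chi d L q' ≤ 1 / (2 * K) := h2.trans hcK
    calc K * (l ^ 2 * chi d L q') ≤ K * (1 / (2 * K)) := mul_le_mul_of_nonneg_left h3 hK0.le
      _ = 1 / 2 := by field_simp
  have hmain : ∀ x ∈ Set.Icc 0 q, trr d L i l x ≤ K * l ^ 4 * (chi d L x) ^ 3 := by
    have hB : ∀ x, HasDerivAt (fun x => K * l ^ 4 * (chi d L x) ^ 3)
        (K * l ^ 4 * (3 * (chi d L x) ^ 2 * dchi d L x)) x := by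
      intro x
      have := ((hasDerivAt_chi (d := d) hL x).fun_pow 3).const_mul (K * l ^ 4)
      simpa using this
    refine image_le_of_deriv_right_lt_deriv_boundary (f := trr d L i l) (f' := dtrr d L i l)
      (a := 0) (b := q) (B := fun x => K * l ^ 4 * (chi d L x) ^ 3)
      (B' := fun x => K * l ^ 4 * (3 * (chi d L x) ^ 2 * dchi d L x)) ?_ ?_ ?_ ?_ ?_
    · exact fun x _ => (hasDerivAt_trr hL i l x).continuousAt.continuousWithinAt
    · exact fun x _ => (hasDerivAt_trr hL i l x).hasDerivWithinAt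
    · rw [TC_trr_zero]
      have := one_le_chi (d := d) (L := L) (q := 0) le_rfl zero_le_one
      positivity
    · exact hB
    · intro x hx he
      exact TC_contact hA hK hC i hd hL hx.1 (hG x hx.1 hx.2.le) hl hl1
        (hKc x hx.1 hx.2.le) he
  have hr := hmain q ⟨h0, le_rfl⟩
  have hM := (hG q h0 le_rfl).2.2 i
  have hKq := hKc q h0 le_rfl
  rw [TC_chl_eq, TC_taa_eq]
  set X := chi d L q with hXdef
  set r := trr d L i l q with hrdef
  set M := ∑ x, (ab i x) ^ 2 * tt d L q x with hMdef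
  have e1 : l ^ 2 / 2 * M ≤ l ^ 2 / 2 * (C * X ^ 2) :=
    mul_le_mul_of_nonneg_left hM (by positivity)
  have e2 : K * l ^ 4 * X ^ 3 = (K * (l ^ 2 * X)) * (l ^ 2 * X ^ 2) := by ring
  have e3 : (K * (l ^ 2 * X)) * (l ^ 2 * X ^ 2) ≤ 1 / 2 * (l ^ 2 * X ^ 2) :=
    mul_le_mul_of_nonneg_right hKq (by positivity)
  have e4 : A * (l ^ 2 * X) ≤ 1 := by
    calc A * (l ^ 2 * X) ≤ A * (1 / A) := mul_le_mul_of_nonneg_left hcA hA0.le
      _ = 1 := by field_simp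
  have e5 : A * (l ^ 2 * X) * X ≤ 1 * X := mul_le_mul_of_nonneg_right e4 (by linarith)
  have e6 : l ^ 2 / 2 * M + r ≤ A * (l ^ 2 * X) * X := by
    rw [hA]
    nlinarith
  linarith

end TC

end Pool.Agent.helper66.LE
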